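import Pool.Agent.Y993.HP.Stm

/-!
# HP-PAIR: pairs of points which share a coordinate (project HP of helper993)
-/

set_option autoImplicit false

namespace Pool.Agent.Y385.HP

open Finset Pool.Agent.Y993.HP

/-- the coordinates in which the two points agree -/
def eqs {d n : ℕ} (z : Pt d n × Pt d n) : Finset (Fin d) := univ.filter (fun i => z.1 i = z.2 i)

lemma sd_nonneg {d N : ℕ} (I : Fin d → Finset (Fin N)) (i : Fin d) : 0 ≤ sd I i := by
  unfold sd; positivity

lemma card_img {d n : ℕ} (p q : Pt d n) (i : Fin d) :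
    (({p, q} : Finset (Pt d n)).image (fun r => r i)).card = if p i = q i then 1 else 2 := by
  rw [image_insert, image_singleton]
  split_ifs with h
  · rw [h]; simp
  · exact Finset.card_pair h

lemma PB_le {k n N : ℕ} (I : Fin (k + 1) → Finset (Fin N)) (c : ℝ)
    (hI : ∀ i, sd I i ≤ c) (z : Pt (k + 1) n × Pt (k + 1) n) :
    PB I {z.1, z.2} ≤ c ^ (2 * (k + 1) - (eqs z).card) := by
  unfold PB
  have h1 : ∏ i, sd I i ^ (({z.1, z.2} : Finset (Pt (k + 1) n)).image (fun p => p i)).card ≤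
      ∏ i, c ^ (if z.1 i = z.2 i then 1 else 2) := by
    apply prod_le_prod
    · intro i _
      exact pow_nonneg (sd_nonneg I i) _
    · intro i _
      rw [card_img]
      exact pow_le_pow_left₀ (sd_nonneg I i) (hI i) _
  refine h1.trans (le_of_eq ?_)
  rw [prod_pow_eq_pow_sum]
  congr 1
  have h2 : ∑ i, (if z.1 i = z.2 i then 1 else 2) + (eqs z).card = 2 * (k + 1) := by
    unfold eqs
    rw [card_filter, ← sum_add_distrib]
    have : ∀ i : Fin (k + 1), ((if z.1 i = z.2 i then 1 else 2) + if z.1 i = z.2 i then 1 else 0)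
        = 2 := by
      intro i; split_ifs <;> rfl
    simp only [this, sum_const, card_univ, Fintype.card_fin, smul_eq_mul]
    ring
  omega

/-- HP-PAIR -/
theorem pair1 (h : S_CARD) : S_PAIR := by
  intro k C hk hC
  refine ⟨2 ^ (k + 1) * (1 + C) ^ (2 * (k + 1)), by positivity, ?_⟩
  intro n N A I hn hN hA hI
  classical
  have hn0 : (0 : ℝ) < n := by exact_mod_cast hn
  have hn1 : (1 : ℝ) ≤ n := by exact_mod_cast hn
  have hk1 : (0 : ℝ) < (k : ℝ) + 1 := by positivity
  set m : ℝ := mm k n with hm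
  have hmpos : 0 < m := by rw [hm]; unfold mm; exact Real.rpow_pos_of_pos hn0 _
  have hc : ∀ i, sd I i ≤ C / m := fun i => by
    rw [le_div_iff₀ hmpos]; exact hI i
  have hcm : 0 ≤ C / m := div_nonneg hC hmpos.le
  obtain ⟨hAc, hAf⟩ := h k n A hn hA
  set F := (A ×ˢ A).filter (fun z => z.1 ≠ z.2 ∧ ∃ i, z.1 i = z.2 i) with hF
  have h1 : ∑ z ∈ F, PB I {z.1, z.2} ≤ ∑ z ∈ F, (C / m) ^ (2 * (k + 1) - (eqs z).card) :=
    sum_le_sum fun z _ => PB_le I (C / m) hc z
  have h2 : ∑ z ∈ F, (C / m) ^ (2 * (k + 1) - (eqs z).card) =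
      ∑ S : Finset (Fin (k + 1)), ∑ z ∈ F.filter (fun z => eqs z = S),
        (C / m) ^ (2 * (k + 1) - (eqs z).card) :=
    (sum_fiberwise F eqs _).symm
  -- each set contributes little
  have h3 : ∀ S : Finset (Fin (k + 1)), ∑ z ∈ F.filter (fun z => eqs z = S),
      (C / m) ^ (2 * (k + 1) - (eqs z).card) ≤
      (1 + C) ^ (2 * (k + 1)) * (n : ℝ) ^ (-(1 / ((k : ℝ) + 1))) := by
    intro S
    have hrhs : 0 ≤ (1 + C) ^ (2 * (k + 1)) * (n : ℝ) ^ (-(1 / ((k : ℝ) + 1))) := by positivity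
    rcases (F.filter (fun z => eqs z = S)).eq_empty_or_nonempty with he | ⟨z0, hz0⟩
    · rw [he, sum_empty]; exact hrhs
    rw [mem_filter, hF, mem_filter] at hz0
    obtain ⟨⟨_, hne, i0, hi0⟩, hS⟩ := hz0
    have hs1 : 1 ≤ S.card := by
      rw [Nat.one_le_iff_ne_zero, ← Nat.pos_iff_ne_zero, card_pos]
      exact ⟨i0, by rw [← hS]; simp [eqs, hi0]⟩
    have hsk : S.card ≤ k := by
      by_contra hcon
      have h4 : S = univ := by
        apply eq_univ_of_card
        have h5 := card_le_univ S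
        rw [Fintype.card_fin] at h5 ⊢
        omega
      apply hne
      funext i
      have : i ∈ eqs z0 := by rw [hS, h4]; exact mem_univ i
      simpa [eqs] using this
    have h4 : ∑ z ∈ F.filter (fun z => eqs z = S), (C / m) ^ (2 * (k + 1) - (eqs z).card) =
        ((F.filter (fun z => eqs z = S)).card : ℝ) * (C / m) ^ (2 * (k + 1) - S.card) := by
      rw [← nsmul_eq_mul, ← sum_const]
      refine sum_congr rfl fun z hz => ?_
      rw [(mem_filter.1 hz).2]
    have h5 : (F.filter (fun z => eqs z = S)).card ≤ n ^ k * n ^ (k - S.card) := by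
      have h6 : F.filter (fun z => eqs z = S) ⊆
          A.biUnion (fun p => (A.filter (fun q => ∀ i ∈ S, q i = p i)).image
            (fun q => ((p, q) : Pt (k + 1) n × Pt (k + 1) n))) := by
        intro z hz
        rw [mem_filter, hF, mem_filter, mem_product] at hz
        obtain ⟨⟨⟨hz1, hz2⟩, _⟩, hz3⟩ := hz
        rw [mem_biUnion]
        refine ⟨z.1, hz1, ?_⟩
        rw [mem_image]
        refine ⟨z.2, ?_, rfl⟩
        rw [mem_filter]
        refine ⟨hz2, fun i hi => ?_⟩
        rw [← hz3] at hi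
        simp only [eqs, mem_filter, mem_univ, true_and] at hi
        exact hi.symm
      refine (card_le_card h6).trans ?_
      refine (card_biUnion_le).trans ?_
      calc ∑ p ∈ A, ((A.filter (fun q => ∀ i ∈ S, q i = p i)).image
            (fun q => ((p, q) : Pt (k + 1) n × Pt (k + 1) n))).card
          ≤ ∑ p ∈ A, n ^ (k - S.card) :=
            sum_le_sum fun p _ => card_image_le.trans (hAf S p)
        _ = n ^ k * n ^ (k - S.card) := by rw [sum_const, smul_eq_mul, hAc]
    rw [h4]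
    have h6 : ((F.filter (fun z => eqs z = S)).card : ℝ) ≤ (n : ℝ) ^ k * (n : ℝ) ^ (k - S.card) := by
      exact_mod_cast h5
    have h7 : ((F.filter (fun z => eqs z = S)).card : ℝ) * (C / m) ^ (2 * (k + 1) - S.card) ≤
        (n : ℝ) ^ k * (n : ℝ) ^ (k - S.card) * (C / m) ^ (2 * (k + 1) - S.card) :=
      mul_le_mul_of_nonneg_right h6 (pow_nonneg hcm _)
    refine h7.trans ?_
    have h8 : (n : ℝ) ^ k * (n : ℝ) ^ (k - S.card) * (C / m) ^ (2 * (k + 1) - S.card) =
        C ^ (2 * (k + 1) - S.card) * (n : ℝ) ^ (-((S.card : ℝ) / ((k : ℝ) + 1))) := by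
      rw [div_pow]
      have e1 : m ^ (2 * (k + 1) - S.card) =
          (n : ℝ) ^ ((k : ℝ) / ((k : ℝ) + 1) * ((2 * (k + 1) - S.card : ℕ) : ℝ)) := by
        rw [hm]
        unfold mm
        rw [← Real.rpow_natCast, ← Real.rpow_mul hn0.le]
      have e2 : (n : ℝ) ^ k * (n : ℝ) ^ (k - S.card) = (n : ℝ) ^ (((2 * k - S.card : ℕ)) : ℝ) := by
        rw [← pow_add, Real.rpow_natCast]
        congr 1
        omega
      rw [e1, e2, mul_div_assoc', mul_comm ((n : ℝ) ^ (((2 * k - S.card : ℕ)) : ℝ)), mul_div_assoc,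
        ← Real.rpow_sub hn0]
      congr 2
      rw [Nat.cast_sub (by omega), Nat.cast_sub (by omega)]
      push_cast
      field_simp
      ring
    rw [h8]
    apply mul_le_mul _ _ (by positivity) (by positivity)
    · calc C ^ (2 * (k + 1) - S.card) ≤ (1 + C) ^ (2 * (k + 1) - S.card) :=
            pow_le_pow_left₀ hC (by linarith) _
        _ ≤ (1 + C) ^ (2 * (k + 1)) :=
            pow_le_pow_right₀ (by linarith) (Nat.sub_le _ _)
    · apply Real.rpow_le_rpow_of_exponent_le hn1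
      rw [neg_le_neg_iff]
      apply div_le_div_of_nonneg_right _ hk1.le
      exact_mod_cast hs1
  calc ∑ z ∈ F, PB I {z.1, z.2} ≤ ∑ z ∈ F, (C / m) ^ (2 * (k + 1) - (eqs z).card) := h1
    _ = ∑ S : Finset (Fin (k + 1)), ∑ z ∈ F.filter (fun z => eqs z = S),
        (C / m) ^ (2 * (k + 1) - (eqs z).card) := h2
    _ ≤ ∑ S : Finset (Fin (k + 1)), (1 + C) ^ (2 * (k + 1)) * (n : ℝ) ^ (-(1 / ((k : ℝ) + 1))) :=
        sum_le_sum fun S _ => h3 S
    _ = 2 ^ (k + 1) * (1 + C) ^ (2 * (k + 1)) * (n : ℝ) ^ (-(1 / ((k : ℝ) + 1))) := by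
        rw [sum_const, card_univ, Fintype.card_finset, Fintype.card_fin, nsmul_eq_mul]
        push_cast
        ring

end Pool.Agent.Y385.HP
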